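import Mathlib
import Pool.Agent.W684.FM.Ambient
import Pool.Agent.U19.LPM.Dual

/-!
# `MP_5cc1ac_gt`, Q1: a positive answer under Martin's axiom

`C_pC_p(X)` and `C_pC_pC_p(X)` are written exactly as in the frozen statement `S13245`.

(1) Martin's axiom for `ℵ₁` dense sets can be forced, preserving all cardinals.
(2) Under this axiom the answer to the question is positive.
(3) In ZFC, if `C_pC_p(X)` is perfectly normal, then all finite powers of `X` have countable spread
and all their closed subsets are `G_δ`-sets.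
(4) In ZFC the answer is positive for all `X` all of whose finite powers are Lindelöf.
-/

set_option autoImplicit false

namespace Pool.Agent.Results.MP_5cc1ac_gt.UnderMartin

open Cardinal Topology TopologicalSpace
open Pool.Agent.W684 Pool.Agent.W684.FM Pool.Agent.Helper669.Forcing

/-- Hereditarily separable spaces: every subset has a countable dense subset. -/
def HereditarilySeparable (Z : Type) [TopologicalSpace Z] : Prop :=
  ∀ A : Set Z, ∃ B ⊆ A, B.Countable ∧ A ⊆ closure B

/-- Hereditarily Lindelöf spaces: every family of open sets has a countable subfamily with the same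
union. -/
def HereditarilyLindelof (Z : Type) [TopologicalSpace Z] : Prop :=
  ∀ 𝒪 : Set (Set Z), (∀ O ∈ 𝒪, IsOpen O) → ∃ 𝒞 ⊆ 𝒪, 𝒞.Countable ∧ ⋃₀ 𝒞 = ⋃₀ 𝒪

/-- Every closed subspace of `C_pC_pC_p(X)` is separable. -/
def ClosedSeparableCpCpCp (X : Type) [TopologicalSpace X] : Prop :=
  ∀ S : Set {h : {g : {f : X → ℝ // Continuous f} → ℝ // Continuous g} → ℝ // Continuous h},
    IsClosed S → SeparableSpace S

/-- **Main theorem.** (1) There is a notion of forcing which preserves all cardinals, and `ω₁`,
and forces Martin's axiom for `ℵ₁` dense sets; the forced form of the axiom is equivalent to the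
usual one. (2) Under Martin's axiom for `ℵ₁` dense sets: for every Tychonoff space `X`, if
`C_pC_p(X)` is perfectly normal, then every closed subspace of `C_pC_pC_p(X)` is separable, and even
all finite powers of `C_pC_pC_p(X)` are hereditarily separable; moreover all finite powers of `X`
are hereditarily Lindelöf and hereditarily separable. (3) In ZFC, if `C_pC_p(X)` is perfectly
normal, then every discrete subspace of a finite power of `X` is countable and every closed subset
of a finite power of `X` is a `G_δ`-set. (4) In ZFC, if `C_pC_p(X)` is perfectly normal and all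
finite powers of `X` are Lindelöf, then every closed subspace of `C_pC_pC_p(X)` is separable. -/
theorem result :
    ((∃ (P : Type) (_ : Preorder P), Nonempty P ∧ ∀ p : P,
        p ∈ CardinalsPreserved.{0, 0} P ∧ p ∈ OmegaOnePreserved P ∧ p ∈ MartinHolds P Om1) ∧
      (MartinFor Om1 ↔ MartinAxiomCard ℵ₁)) ∧
    (MartinAxiomCard ℵ₁ → ∀ (X : Type) [TopologicalSpace X] [T35Space X],
      PerfectlyNormalSpace {g : {f : X → ℝ // Continuous f} → ℝ // Continuous g} →
      ClosedSeparableCpCpCp X ∧
      (∀ n : ℕ, HereditarilyLindelof (Fin n → X) ∧ HereditarilySeparable (Fin n → X) ∧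
        HereditarilySeparable (Fin n →
          {h : {g : {f : X → ℝ // Continuous f} → ℝ // Continuous g} → ℝ // Continuous h}))) ∧
    (∀ (X : Type) [TopologicalSpace X] [T35Space X],
      PerfectlyNormalSpace {g : {f : X → ℝ // Continuous f} → ℝ // Continuous g} →
      ∀ n : ℕ, (∀ s : Set (Fin n → X), DiscreteTopology ↥s → s.Countable) ∧
        ∀ s : Set (Fin n → X), IsClosed s → IsGδ s) ∧
    (∀ (X : Type) [TopologicalSpace X] [T35Space X],
      PerfectlyNormalSpace {g : {f : X → ℝ // Continuous f} → ℝ // Continuous g} →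
      (∀ n : ℕ, LindelofSpace (Fin n → X)) → ClosedSeparableCpCpCp X) := by
  have key : ∀ (X : Type) [TopologicalSpace X],
      (∀ n : ℕ, Pool.Agent.Results.MP_f6eb07_gt.PowersMA.HereditarilyLindelof (Fin n → X)) →
      ClosedSeparableCpCpCp X ∧ ∀ n : ℕ, HereditarilySeparable (Fin n →
        {h : {g : {f : X → ℝ // Continuous f} → ℝ // Continuous g} → ℝ // Continuous h}) := by
    intro X _ hX
    have h1 := Pool.Agent.U19.LPM.hsep_pow hX
    have h2 := Pool.Agent.U19.LPM.hlin_Cp h1
    have h3 := Pool.Agent.U19.LPM.hsep_pow h2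
    exact ⟨Pool.Agent.U19.LPM.clSep_of_hsep (Pool.Agent.U19.LPM.hsep_one (h3 1)), h3⟩
  refine ⟨⟨exists_forcing Om1, ?_⟩, ?_, ?_, ?_⟩
  · rw [martinFor_om1_iff, martinAxiomAleph1_iff]
  · intro hMA X _ _ h
    have hMA' : Pool.Agent.Results.MP_f6eb07_gt.PowersMA.MartinAxiomAlephOne :=
      fun P _ _ hP 𝒟 h𝒟 hd => hMA P hP 𝒟 h𝒟 hd
    have hX := Pool.Agent.U19.LPM.hlin_pow_lp hMA' (Pool.Agent.U19.LPM.lp_of_cpcp h)
    obtain ⟨h4, h5⟩ := key X fun n => (hX n).1
    exact ⟨h4, fun n => ⟨(hX n).1, (hX n).2, h5 n⟩⟩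
  · intro X _ _ h n
    exact ⟨fun s hs => Pool.Agent.U19.LPM.spread_of_lp (Pool.Agent.U19.LPM.lp_of_cpcp h) n s hs,
      fun s hs => Pool.Agent.U19.LPM.gdelta_pow (Pool.Agent.U19.LPM.lp_of_cpcp h) n s hs⟩
  · intro X _ _ h hX
    exact (key X (Pool.Agent.U19.LPM.hlin_pow_lp_of_lindelof
      (Pool.Agent.U19.LPM.lp_of_cpcp h) hX)).1

end Pool.Agent.Results.MP_5cc1ac_gt.UnderMartin
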